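import Mathlib
import Pool.Agent.H55.SuperClosed

/-!
# Closedness of distributional supersolutions under `L¹` convergence (no monotonicity of `g`)

Answer to Q1 of `MP_97dcc2_an`: yes.  Idea of the proof: if `-Δ w + h ≥ 0` in the sense of
distributions then, for a smooth concave truncation `Ψ_k` (equal to the identity on `(-∞, k]`,
constant on `[k+1, ∞)`), mollification and the chain rule give
`-Δ Ψ_k(w) + Ψ_k'(w) h ≥ 0`.  For `w = u_n`, `h = g(u_n)` the positive part of `Ψ_k'(u_n) g(u_n)` is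
a bounded continuous function of `u_n` and the negative part is treated by Fatou's lemma; finally
`k → ∞` by dominated convergence.
-/

set_option autoImplicit false

open MeasureTheory Filter Topology InnerProductSpace Laplacian
open scoped ContDiff

namespace Pool.Agent.Results.MP_97dcc2_an.L1Closed

/-- `-Δ v + g(v) ≥ 0` on `Ω` in the sense of distributions:
`∫_Ω v (-Δ φ) + ∫_Ω g(v) φ ≥ 0` for every smooth `φ ≥ 0` with compact support contained in `Ω`. -/
def IsSupersolution {N : ℕ} (Ω : Set (EuclideanSpace ℝ (Fin N))) (g : ℝ → ℝ)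
    (v : EuclideanSpace ℝ (Fin N) → ℝ) : Prop :=
  ∀ φ : EuclideanSpace ℝ (Fin N) → ℝ, ContDiff ℝ ∞ φ → HasCompactSupport φ → tsupport φ ⊆ Ω →
    (∀ x, 0 ≤ φ x) → 0 ≤ (∫ x in Ω, v x * (-(Δ φ) x)) + ∫ x in Ω, g (v x) * φ x

theorem result {N : ℕ} {Ω : Set (EuclideanSpace ℝ (Fin N))} (hΩ : IsOpen Ω)
    {g : ℝ → ℝ} (hg : Continuous g) (hsign : ∀ t, 0 ≤ g t * t)
    {u : ℕ → EuclideanSpace ℝ (Fin N) → ℝ} {v : EuclideanSpace ℝ (Fin N) → ℝ}
    (hu : ∀ n, IntegrableOn (u n) Ω) (hgu : ∀ n, IntegrableOn (fun x => g (u n x)) Ω)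
    (hsup : ∀ n, IsSupersolution Ω g (u n))
    (hbd : ∃ C : ℝ, ∀ n, ∫ x in Ω, |g (u n x)| ≤ C)
    (hv : IntegrableOn v Ω)
    (hlim : Tendsto (fun n => ∫ x in Ω, |u n x - v x|) atTop (𝓝 0)) :
    IntegrableOn (fun x => g (v x)) Ω ∧ IsSupersolution Ω g v := by
  obtain ⟨C, hC⟩ := hbd
  exact Pool.Agent.H55.Super.closed hΩ hg hsign hu hgu hC hsup hv hlim

end Pool.Agent.Results.MP_97dcc2_an.L1Closed
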